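import Pool.Agent.Helper89.OC.St3

/-! # Project OC (MP_2b6189_al), module DIC: the three cases -/

set_option autoImplicit false

namespace Pool.Agent.Helper39.OC

open Matrix ComplexConjugate Pool.Agent.Helper94.YF Pool.Agent.Helper94.YG
open Pool.Agent.Helper89.OS Pool.Agent.Helper89.OC Pool.Agent.Helper94.OT

open Classical in
theorem cdx (I : Type) [Fintype I] [DecidableEq I] (p : ℕ)
    (X : PD I p 1) (Q : ℂ → Prop) (hB : Blk X Q) :
    ∃ C : CD3 I p, C.d = X.d ∧ C.K = Ks X ∧ C.y = X.y ∧ C.O = Orb X ∧ C.g = gX X := by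
  obtain ⟨C, hd, hK, hy, hO, hg, hz⟩ := cdx2 Helper39.OS.hMZZ Helper79.OS.hDRE Helper45.OS.hTSU
    Helper82.OS.hMUK Helper47.OS.hSTL Helper8.OS.hHEC Helper91.OS.hAMG hRAT' I p X Q hB
  have hKm : ∀ k, k ∈ C.K ↔ X.y k ≠ 0 ∧ X.t k = 1 ∧ k ≠ X.o := by
    intro k
    simp [hK]
  refine ⟨{ C with pos := ?_, par := ?_ }, hd, ?_, hy, hO, hg⟩
  · by_contra hno
    push Not at hno
    rw [hy] at hno
    have hkap := X.kap_y
    have hg2 := C.g_ge
    rw [hg] at hg2
    have h1 : ∑ i ∈ Finset.univ.erase X.o, X.y i * (X.kap i : ℤ) ≤ 0 := by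
      apply Finset.sum_nonpos
      intro i hi
      have hio : i ≠ X.o := (Finset.mem_erase.1 hi).1
      by_cases h0 : X.kap i = 0
      · rw [h0]; simp
      by_cases hyi : X.y i = 0
      · rw [hyi]; simp
      have h2 := hno i ((hKm i).2 ⟨hyi, X.kap_t i h0, hio⟩)
      exact mul_nonpos_of_nonpos_of_nonneg h2 (by positivity)
    rw [← Finset.add_sum_erase _ _ (Finset.mem_univ X.o), X.kap_o] at hkap
    push_cast at hkap
    linarith
  · intro k hk hs
    rw [hO]
    apply par2 X k
    intro h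
    have h1 := Helper79.OS.hPAR I p 1 X k h
    rw [hz k hk hs] at h1
    exact absurd h1 (by decide)
  · ext k
    show k ∈ C.K ↔ _
    rw [hKm]
    simp [Ks]

theorem hDIC : StDIC := by
  intro I _ _ p _ X Q hB
  obtain ⟨C, hd, hK, hy, hO, hg⟩ := cdx I p X Q hB
  obtain ⟨N, hN, hN'⟩ := C.dich
  by_cases hN1 : N = 1
  · left
    rw [← hK, ← hd]
    apply C.caseA
    rw [hN1] at hN'
    push_cast at hN'
    linarith
  right
  have hN3 : 3 ≤ N := by
    obtain ⟨r, hr⟩ := hN
    omega
  obtain ⟨M, hM⟩ := C.exM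
  obtain ⟨h0, h1, hB', hX, i1, i2⟩ := C.ineq M hM
  have hp : (3 : ℤ) ≤ p := by exact_mod_cast C.p_ge
  have hg2 := C.g_ge
  have hg1 := C.g_le
  have hD := C.D_ne
  have hAp : 0 < |C.D| := abs_pos.2 hD
  obtain ⟨c, hc⟩ := C.gD
  rcases lt_trichotomy M 1 with hM1 | hM1 | hM1
  · -- M = 0
    exfalso
    have hM0 : M = 0 := by omega
    rw [hM0] at i2 hB' hX hM
    rcases C.sign_cases with ⟨hs, ha⟩ | ⟨hs, ha⟩
    · rw [hs] at i2
      nlinarith
    · rw [hs] at i2 hX
      have h2 : C.g * |C.D| ≤ p + 1 := by nlinarith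
      have h3 : C.g * |C.D| = 1 - p * c := by rw [ha]; linarith
      have h4 : 2 ≤ C.g * |C.D| := by nlinarith
      have h5 : C.g * |C.D| = p + 1 := by
        have hc1 : c ≤ -1 := by
          by_contra h
          push Not at h
          have : 0 ≤ c := by omega
          nlinarith
        have hc2 : -1 ≤ c := by
          by_contra h
          push Not at h
          have : c ≤ -2 := by omega
          nlinarith
        have : c = -1 := le_antisymm hc1 hc2
        rw [h3, this]; ring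
      have heq : ∀ k ∈ C.K \ C.A, |C.D| * C.y k ^ 2 -
          (p + 1) * (C.D.sign * (C.y k * C.d k)) = 0 := by
        have hnn : ∀ k ∈ C.K \ C.A, 0 ≤ |C.D| * C.y k ^ 2 -
          (p + 1) * (C.D.sign * (C.y k * C.d k)) := by
          intro k hk
          have := (C.bnd k hk).2
          linarith
        rw [← Finset.sum_eq_zero_iff_of_nonneg hnn, Finset.sum_sub_distrib, ← Finset.mul_sum,
          ← Finset.mul_sum, hB', hs, hX]
        linear_combination (-(C.g : ℤ)) * h5
      obtain ⟨k, hk, hkp⟩ := C.pos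
      have hkA : k ∉ C.A := by
        intro hkA
        have h9 : C.y k ^ 2 ≤ ∑ i ∈ C.A, C.y i ^ 2 :=
          Finset.single_le_sum (f := fun i => C.y i ^ 2) (fun i _ => sq_nonneg _) hkA
        rw [hM] at h9
        nlinarith
      have h6 := heq k (Finset.mem_sdiff.2 ⟨hk, hkA⟩)
      rw [hs] at h6
      have hdp : (0 : ℤ) < C.d k := by exact_mod_cast C.d_pos k
      nlinarith [mul_pos hAp (mul_pos hkp hkp), mul_pos hkp hdp]
  · -- M = 1
    right
    have hA' : ∑ k ∈ C.A, C.y k ^ 2 = C.g := by rw [hM, hM1]; ring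
    obtain ⟨a, ha, hS, hya, hca⟩ := C.one_orbit (S := C.A)
      (fun k hk => ⟨(Finset.mem_filter.1 hk).1, C.O_A hk⟩) hA'
    have haK := C.AK ha
    have hKp : Kp X a = C.K \ C.A := by
      ext k
      rw [hS, hK, hO]
      simp [Kp, Finset.mem_sdiff]
    refine ⟨N, a, ⟨hB, hN, hN3, by rw [← hg]; exact hN', by rw [← hK]; exact haK,
      by rw [← hy]; exact hya, by rw [← hO, ← hg]; exact hca, ?_, ?_⟩⟩
    · rw [hKp, ← hy, ← hg, hB', hM1]
      ring
    · rw [hKp, ← hy, ← hg, ← hd]
      rw [hM1, ← Finset.mul_sum] at hX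
      have hs0 : C.D.sign ≠ 0 := by
        rw [Ne, Int.sign_eq_zero_iff_zero]; exact hD
      apply mul_left_cancel₀ hs0
      rw [hX]
      ring
  · -- M ≥ 2
    left
    have hs : C.D.sign = 1 ∧ |C.D| = C.D := by
      rcases C.sign_cases with h | ⟨hs, ha⟩
      · exact h
      · exfalso
        rw [hs] at i1
        have h2 : 0 ≤ |C.D| * ((M - 2) * p + C.g) := by
          apply mul_nonneg hAp.le
          have : 0 ≤ (M - 2) * p := mul_nonneg (by omega) (by omega)
          linarith
        nlinarith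
    obtain ⟨hs1, ha1⟩ := hs
    rw [hs1, ha1] at i1
    have hDp : 0 < C.D := by rw [← ha1]; exact hAp
    have h2 : C.D * ((M - 2) * p + C.g) ≤ p - 1 := by nlinarith
    have h3 : C.g * C.D ≤ p - 1 := by
      have : 0 ≤ C.D * ((M - 2) * p) := mul_nonneg hDp.le (mul_nonneg (by omega) (by omega))
      nlinarith
    have h4 : C.g * C.D = p * c - 1 := by linarith
    have h5 : 0 < C.g * C.D := mul_pos (by omega) hDp
    have hc1 : c = 1 := by
      apply le_antisymm
      · by_contra h
        push Not at h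
        have : 2 ≤ c := by omega
        nlinarith
      · by_contra h
        push Not at h
        have : c ≤ 0 := by omega
        nlinarith
    rw [hc1] at h4
    have hM2 : M = 2 := by
      by_contra hne
      have hM3 : 1 ≤ M - 2 := by omega
      have h6 : C.D * ((M - 2) * p) ≤ 0 := by nlinarith
      have h7 : 0 < C.D * ((M - 2) * p) := mul_pos hDp (mul_pos (by omega) (by omega))
      omega
    rw [hM2] at hB' hX
    have hz : ∀ k ∈ C.K \ C.A, (p - 1) * (C.D.sign * (C.y k * C.d k)) +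
        |C.D| * C.y k ^ 2 = 0 := by
      have hnn : ∀ k ∈ C.K \ C.A, 0 ≤ (p - 1) * (C.D.sign * (C.y k * C.d k)) +
          |C.D| * C.y k ^ 2 := by
        intro k hk
        have := (C.bnd k hk).1
        linarith
      have e1 : ∑ k ∈ C.K \ C.A, ((p : ℤ) - 1) * (C.D.sign * (C.y k * C.d k)) =
          (p - 1) * ∑ k ∈ C.K \ C.A, C.D.sign * (C.y k * C.d k) := by
        rw [Finset.mul_sum]
      have e2 : ∑ k ∈ C.K \ C.A, |C.D| * C.y k ^ 2 = |C.D| * ∑ k ∈ C.K \ C.A, C.y k ^ 2 := by
        rw [Finset.mul_sum]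
      rw [← Finset.sum_eq_zero_iff_of_nonneg hnn, Finset.sum_add_distrib, e1, e2, hB', hX,
        hs1, ha1]
      linear_combination (-(C.g : ℤ)) * h4
    have hne : (C.K \ C.A).Nonempty := by
      rw [Finset.nonempty_iff_ne_empty]
      intro h
      rw [h, Finset.sum_empty] at hB'
      have h7 : (3 : ℤ) ≤ N := by exact_mod_cast hN3
      have h10 : 3 * C.g ≤ N * C.g := mul_le_mul_of_nonneg_right h7 (by omega)
      have h11 : 0 < C.g * ((p : ℤ) + 1 - C.g - 2) := mul_pos (by omega) (by linarith)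
      omega
    obtain ⟨k, hk⟩ := hne
    have hk2 := hz k hk
    rw [hs1, ha1, one_mul] at hk2
    have hy0 : C.y k ≠ 0 := C.y_ne k (Finset.mem_sdiff.1 hk).1
    have hp1 : (p : ℤ) - 1 = C.g * C.D := by linarith
    rw [hp1] at hk2
    have h8 : (C.D * C.y k) * (C.y k + C.g * C.d k) = 0 := by linear_combination hk2
    rcases mul_eq_zero.1 h8 with h9 | h9
    · exfalso
      rcases mul_eq_zero.1 h9 with h9 | h9
      · exact hD h9
      · exact hy0 h9
    · refine ⟨k, ?_, ?_⟩
      · rw [← hK]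
        exact (Finset.mem_sdiff.1 hk).1
      · rw [← hy, ← hg, ← hd]
        linarith

end Pool.Agent.Helper39.OC

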